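import Pool.Agent.H20.RT.Pat

/-! Row S4 of the board rt. -/

set_option autoImplicit false

namespace Pool.RT

theorem S4_thm (hSTP : STPStmt) : S4Stmt := by
  intro a b
  have hR0 : R 0 = 0 := by simp [R]
  have h := hSTP (wl 0 0 0 0 0 0 0 (a + b + 1) (b + 1))
    ([7] ++ (List.replicate b 8 ++ (List.replicate a 7 ++ (List.replicate (b + 1) 8 ++ [1]))))
    1 0 0 0 0 0 (a + 1) (2 * b + 1) 0
    (by
      intro x hx
      simp only [wl, List.mem_append, List.mem_replicate] at hx
      omega)
    (by
      intro x hx
      simp only [List.mem_append, List.mem_replicate, List.mem_singleton] at hx
      omega)
    (by
      simp only [wl, List.replicate_zero, List.append_nil, List.reverse_append,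
        List.reverse_replicate, Nat.ofDigits_append, od_rep, List.length_replicate, pow_R, R_add,
        hR0, R_succ, List.length_singleton, Nat.ofDigits_singleton,
        pow_succ, Nat.ofDigits_nil, List.reverse_nil, List.length_nil, pow_zero]
      ring)
    (by simp [List.count_append, List.count_replicate])
    (by simp [List.count_append, List.count_replicate])
    (by simp [List.count_append, List.count_replicate])
    (by simp [List.count_append, List.count_replicate])
    (by simp [List.count_append, List.count_replicate])
    (by simp [List.count_append, List.count_replicate])
    (by simp [List.count_append, List.count_replicate])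
    (by simp [List.count_append, List.count_replicate]; try ring)
    (by simp [List.count_append, List.count_replicate])
  exact h

end Pool.RT
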